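import Pool.Agent.K4W.StmtsV

set_option autoImplicit false

namespace Pool.Agent.K4W.H59

open Pool.Agent.Helper69_Weyl (sdiv card_sdiv mem_sdiv exists_card_divisors_le)

theorem fib (P : Finset (ℤ × ℤ)) (H : ℤ) (hH : H ≠ 0) :
    (P.filter (fun p => p.1 * p.2 = H)).card ≤ 2 * H.natAbs.divisors.card := by
  refine le_trans ?_ (card_sdiv H.natAbs)
  apply Finset.card_le_card_of_injOn (fun p => p.1)
  · intro p hp
    have hp' := Finset.mem_coe.1 hp
    rw [Finset.mem_filter] at hp'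
    exact Finset.mem_coe.2 (mem_sdiv hH ⟨p.2, hp'.2.symm⟩)
  · intro p hp q hq hpq
    have hp' := Finset.mem_coe.1 hp
    have hq' := Finset.mem_coe.1 hq
    rw [Finset.mem_filter] at hp' hq'
    have h1 : p.1 = q.1 := hpq
    have h0 : p.1 ≠ 0 := by
      intro h
      apply hH
      rw [← hp'.2, h, zero_mul]
    have h2 : p.1 * p.2 = p.1 * q.2 := by
      rw [hp'.2, h1, hq'.2]
    exact Prod.ext h1 (mul_left_cancel₀ h0 h2)

theorem dvb : DvbStmt := by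
  obtain ⟨C, hC1, hC⟩ := exists_card_divisors_le (1 / 600000) (by norm_num)
  obtain ⟨Z₀, hZ₀⟩ := exists_nat_ge ((200 * C) ^ 2)
  refine ⟨max Z₀ 1, ?_⟩
  intro Z hZ P X hX hP Y hY
  have hZ1 : 1 ≤ Z := le_trans (le_max_right _ _) hZ
  have hZr : (1 : ℝ) ≤ (Z : ℝ) := by exact_mod_cast hZ1
  have hZ0 : (0 : ℝ) < (Z : ℝ) := by linarith
  have hbig : (200 * C) ^ 2 ≤ (Z : ℝ) := by
    refine hZ₀.trans ?_
    exact_mod_cast le_trans (le_max_left _ _) hZ
  have hsq : 200 * C ≤ Real.sqrt (Z : ℝ) := Real.le_sqrt_of_sq_le hbig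
  have hsq0 : 0 ≤ Real.sqrt (Z : ℝ) := Real.sqrt_nonneg _
  have hmaps : ∀ p ∈ P, p.1 * p.2 ∈ Hs X := by
    intro p hp
    have h := hP p hp
    unfold Hs
    rw [Finset.mem_filter, Finset.mem_Icc]
    exact ⟨abs_le.1 h.2, h.1⟩
  have e1 : ∑ p ∈ P, Y (p.1 * p.2) =
      ∑ H ∈ Hs X, ((P.filter (fun p => p.1 * p.2 = H)).card : ℝ) * Y H := by
    rw [← Finset.sum_fiberwise_of_maps_to hmaps]
    refine Finset.sum_congr rfl fun H _ => ?_
    rw [Finset.sum_congr rfl (g := fun _ => Y H)]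
    · rw [Finset.sum_const, nsmul_eq_mul]
    · intro p hp
      rw [(Finset.mem_filter.1 hp).2]
  have hH : ∀ H ∈ Hs X, ((P.filter (fun p => p.1 * p.2 = H)).card : ℝ) ≤
      2 * C * Real.sqrt (Z : ℝ) := by
    intro H hH
    unfold Hs at hH
    rw [Finset.mem_filter, Finset.mem_Icc] at hH
    have h1 : ((P.filter (fun p => p.1 * p.2 = H)).card : ℝ) ≤
        2 * ((H.natAbs.divisors.card : ℕ) : ℝ) := by exact_mod_cast fib P H hH.2
    have h2 := hC H.natAbs (Int.natAbs_ne_zero.2 hH.2)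
    have h3 : H.natAbs ≤ Z ^ 300000 := by
      refine le_trans ?_ hX
      omega
    have h4 : (H.natAbs : ℝ) ^ (1 / 600000 : ℝ) ≤ Real.sqrt (Z : ℝ) := by
      have h5 : (H.natAbs : ℝ) ≤ (Z : ℝ) ^ 300000 := by exact_mod_cast h3
      calc (H.natAbs : ℝ) ^ (1 / 600000 : ℝ) ≤ ((Z : ℝ) ^ 300000) ^ (1 / 600000 : ℝ) :=
            Real.rpow_le_rpow (Nat.cast_nonneg _) h5 (by norm_num)
        _ = Real.sqrt (Z : ℝ) := by
            rw [← Real.rpow_natCast, ← Real.rpow_mul hZ0.le, Real.sqrt_eq_rpow]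
            norm_num
    have h6 : C * (H.natAbs : ℝ) ^ (1 / 600000 : ℝ) ≤ C * Real.sqrt (Z : ℝ) :=
      mul_le_mul_of_nonneg_left h4 (by linarith)
    linarith
  rw [e1, Finset.mul_sum, Finset.mul_sum]
  refine Finset.sum_le_sum fun H hHm => ?_
  have h1 := hH H hHm
  have h2 : 100 * (2 * C * Real.sqrt (Z : ℝ)) ≤ (Z : ℝ) := by
    have h3 : Real.sqrt (Z : ℝ) * Real.sqrt (Z : ℝ) = (Z : ℝ) := Real.mul_self_sqrt hZ0.le
    nlinarith
  have h4 : 100 * ((P.filter (fun p => p.1 * p.2 = H)).card : ℝ) ≤ (Z : ℝ) := by linarith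
  calc 100 * (((P.filter (fun p => p.1 * p.2 = H)).card : ℝ) * Y H)
      = (100 * ((P.filter (fun p => p.1 * p.2 = H)).card : ℝ)) * Y H := by ring
    _ ≤ (Z : ℝ) * Y H := mul_le_mul_of_nonneg_right h4 (hY H)

end Pool.Agent.K4W.H59
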