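import Pool.Agent.K4W.StmtsP

set_option autoImplicit false

namespace Pool.Agent.K4W.H59

theorem core (N r m β D L T : ℝ) (hN : 0 < N) (hr : 0 < r) (h1 : r ≤ 2 * N * D)
    (h2 : r * |β| ≤ 3 * D / N) (h3 : T / (L * N) ≤ r * |β|) (hm : L < m) (hm2 : m ≤ 2 * L)
    (hD : 1 ≤ D) (hL : 2 ≤ L) :
    T ≤ r * Real.sqrt (4 / N ^ 2 + (m * β) ^ 2 * N ^ 2) ∧
      r * Real.sqrt (4 / N ^ 2 + (m * β) ^ 2 * N ^ 2) ≤ 7 * (L * D) := by
  have hm0 : 0 < m := by linarith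
  have hb : 0 ≤ |β| := abs_nonneg β
  have hrb : 0 ≤ r * |β| := mul_nonneg hr.le hb
  have hLN : 0 < L * N := by nlinarith
  constructor
  · have k1 : m * |β| * N ≤ Real.sqrt (4 / N ^ 2 + (m * β) ^ 2 * N ^ 2) := by
      apply Real.le_sqrt_of_sq_le
      have e1 : (m * |β| * N) ^ 2 = (m * β) ^ 2 * N ^ 2 := by
        rw [mul_pow, mul_pow, sq_abs, mul_pow]
      rw [e1]
      have : 0 ≤ 4 / N ^ 2 := by positivity
      linarith
    have k2 : T ≤ (r * |β|) * (L * N) := (div_le_iff₀ hLN).1 h3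
    have k3 : (r * |β|) * (L * N) ≤ (r * |β|) * (m * N) := by
      apply mul_le_mul_of_nonneg_left _ hrb
      exact mul_le_mul_of_nonneg_right hm.le hN.le
    calc T ≤ (r * |β|) * (m * N) := k2.trans k3
      _ = r * (m * |β| * N) := by ring
      _ ≤ _ := mul_le_mul_of_nonneg_left k1 hr.le
  · have k0 : 0 ≤ 4 / N ^ 2 + (m * β) ^ 2 * N ^ 2 := by positivity
    have k1 : (r * Real.sqrt (4 / N ^ 2 + (m * β) ^ 2 * N ^ 2)) ^ 2 ≤ (7 * (L * D)) ^ 2 := by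
      rw [mul_pow, Real.sq_sqrt k0]
      have e1 : r ^ 2 * (4 / N ^ 2 + (m * β) ^ 2 * N ^ 2) =
          4 * (r / N) ^ 2 + m ^ 2 * ((r * |β|) * N) ^ 2 := by
        have : |β| ^ 2 = β ^ 2 := sq_abs β
        field_simp
        rw [this]
      rw [e1]
      have a1 : r / N ≤ 2 * D := by
        rw [div_le_iff₀ hN]
        linarith
      have a0 : 0 ≤ r / N := by positivity
      have a2 : (r * |β|) * N ≤ 3 * D := by
        rw [← le_div_iff₀ hN]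
        exact h2
      have a3 : 0 ≤ (r * |β|) * N := mul_nonneg hrb hN.le
      have b1 : (r / N) ^ 2 ≤ (2 * D) ^ 2 := pow_le_pow_left₀ a0 a1 2
      have b2 : ((r * |β|) * N) ^ 2 ≤ (3 * D) ^ 2 := pow_le_pow_left₀ a3 a2 2
      have b3 : m ^ 2 ≤ (2 * L) ^ 2 := pow_le_pow_left₀ hm0.le hm2 2
      have b4 : m ^ 2 * ((r * |β|) * N) ^ 2 ≤ (2 * L) ^ 2 * (3 * D) ^ 2 :=
        mul_le_mul b3 b2 (by positivity) (by positivity)
      have b5 : 4 * D ^ 2 ≤ L ^ 2 * D ^ 2 := by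
        apply mul_le_mul_of_nonneg_right _ (by positivity)
        nlinarith
      nlinarith
    have k2 : 0 ≤ 7 * (L * D) := by nlinarith
    exact abs_le_of_sq_le_sq' k1 k2 |>.2

theorem rzb : RzbStmt := by
  intro Z N r μ b β hZ hN hP hm hm2
  obtain ⟨hodd, -, hr2, -, h2, h3⟩ := hP
  have hr : 0 < r := hodd.pos
  have h1 : (r : ℝ) ≤ 2 * (N : ℝ) * (Z : ℝ) ^ 84 := by exact_mod_cast hr2
  have hZ1 : (1 : ℝ) ≤ (Z : ℝ) := by exact_mod_cast (by omega : 1 ≤ Z)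
  have hZ2 : (2 : ℝ) ≤ (Z : ℝ) := by exact_mod_cast hZ
  have hL : (2 : ℝ) ≤ (Z : ℝ) ^ 1000 := hZ2.trans (le_self_pow₀ hZ1 (by norm_num))
  have hD : (1 : ℝ) ≤ (Z : ℝ) ^ 84 := one_le_pow₀ hZ1
  have hmr : (Z : ℝ) ^ 1000 < (μ : ℝ) := by exact_mod_cast hm
  have hmr2 : (μ : ℝ) ≤ 2 * (Z : ℝ) ^ 1000 := by exact_mod_cast hm2
  have h := core (N : ℝ) (r : ℝ) (μ : ℝ) β ((Z : ℝ) ^ 84) ((Z : ℝ) ^ 1000) ((Z : ℝ) ^ 166)
    (by exact_mod_cast hN) (by exact_mod_cast hr) h1 h2 h3 hmr hmr2 hD hL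
  have e : (Z : ℝ) ^ 1000 * (Z : ℝ) ^ 84 = (Z : ℝ) ^ 1084 := by rw [← pow_add]
  rw [e] at h
  have hp : (0 : ℝ) ≤ (Z : ℝ) ^ 1084 := by positivity
  unfold RR wg
  exact ⟨h.1, h.2.trans (by linarith)⟩

end Pool.Agent.K4W.H59
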